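import Pool.Agent.U892.PD.Stm

set_option autoImplicit false

/-! Project PD, package SYS2: the closed system by cross differentiation -/

open Filter Topology Set
open scoped ContDiff

namespace Pool.Agent.U439.PD

open Pool.Agent.U892.PD

/-- `f` is differentiable at `w` and its derivative in the direction `v` is `a` -/
def HD (v : ℝ × ℝ) (f : ℝ × ℝ → ℝ) (a : ℝ) (w : ℝ × ℝ) : Prop :=
  DifferentiableAt ℝ f w ∧ fderiv ℝ f w v = a

section rules

variable {v w : ℝ × ℝ} {f g : ℝ × ℝ → ℝ} {a b : ℝ}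

theorem HD.mul (hf : HD v f a w) (hg : HD v g b w) :
    HD v (fun w => f w * g w) (a * g w + f w * b) w := by
  refine ⟨hf.1.mul hg.1, ?_⟩
  rw [fderiv_fun_mul hf.1 hg.1]
  change f w * fderiv ℝ g w v + g w * fderiv ℝ f w v = _
  rw [hf.2, hg.2]
  ring

theorem HD.add (hf : HD v f a w) (hg : HD v g b w) :
    HD v (fun w => f w + g w) (a + b) w := by
  refine ⟨hf.1.add hg.1, ?_⟩
  rw [fderiv_fun_add hf.1 hg.1]
  change fderiv ℝ f w v + fderiv ℝ g w v = _
  rw [hf.2, hg.2]

theorem HD.sub (hf : HD v f a w) (hg : HD v g b w) :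
    HD v (fun w => f w - g w) (a - b) w := by
  refine ⟨hf.1.sub hg.1, ?_⟩
  rw [fderiv_fun_sub hf.1 hg.1]
  change fderiv ℝ f w v - fderiv ℝ g w v = _
  rw [hf.2, hg.2]

theorem HD.neg (hf : HD v f a w) : HD v (fun w => -f w) (-a) w := by
  refine ⟨hf.1.neg, ?_⟩
  rw [fderiv_fun_neg]
  change -(fderiv ℝ f w v) = _
  rw [hf.2]

theorem HD.cmul (c : ℝ) (hf : HD v f a w) : HD v (fun w => c * f w) (c * a) w := by
  refine ⟨hf.1.const_mul c, ?_⟩
  rw [(hf.1.hasFDerivAt.const_mul c).fderiv]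
  change c * fderiv ℝ f w v = _
  rw [hf.2]

theorem HD.ev (hf : HD v f a w) (h : g =ᶠ[𝓝 w] f) : HD v g a w :=
  ⟨hf.1.congr_of_eventuallyEq h, by rw [h.fderiv_eq, hf.2]⟩

theorem hda (hf : DifferentiableAt ℝ f w) : HD (1, 0) f (da f w) w := ⟨hf, rfl⟩

theorem hdb (hf : DifferentiableAt ℝ f w) : HD (0, 1) f (db f w) w := ⟨hf, rfl⟩

end rules

theorem cda {f : ℝ × ℝ → ℝ} {w : ℝ × ℝ} {m n : WithTop ℕ∞} (hf : ContDiffAt ℝ n f w)
    (h : m + 1 ≤ n) : ContDiffAt ℝ m (da f) w :=
  (hf.fderiv_right h).clm_apply contDiffAt_const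

theorem cdb {f : ℝ × ℝ → ℝ} {w : ℝ × ℝ} {m n : WithTop ℕ∞} (hf : ContDiffAt ℝ n f w)
    (h : m + 1 ≤ n) : ContDiffAt ℝ m (db f) w :=
  (hf.fderiv_right h).clm_apply contDiffAt_const

/-- symmetry of the second derivatives -/
theorem comm {f : ℝ × ℝ → ℝ} {w : ℝ × ℝ} (hf : ContDiffAt ℝ 2 f w) :
    db (da f) w = da (db f) w := by
  have h1 : DifferentiableAt ℝ (fderiv ℝ f) w :=
    (hf.fderiv_right (m := 1) (by norm_num)).differentiableAt (by norm_num)
  have h2 : ∀ v u : ℝ × ℝ, fderiv ℝ (fun w' => fderiv ℝ f w' v) w u =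
      fderiv ℝ (fderiv ℝ f) w u v := by
    intro v u
    rw [(h1.hasFDerivAt.clm_apply (hasFDerivAt_const v w)).fderiv]
    simp
  have h3 : IsSymmSndFDerivAt ℝ f w := hf.isSymmSndFDerivAt (by simp)
  change fderiv ℝ (fun w' => fderiv ℝ f w' (1, 0)) w (0, 1) =
    fderiv ℝ (fun w' => fderiv ℝ f w' (0, 1)) w (1, 0)
  rw [h2, h2]
  exact h3 _ _

/-- cross differentiation -/
theorem cross {f g h : ℝ × ℝ → ℝ} {w : ℝ × ℝ} {A B : ℝ} (hf : ContDiffAt ℝ 2 f w)
    (ha : ∀ᶠ w' in 𝓝 w, da f w' = g w') (hb : ∀ᶠ w' in 𝓝 w, db f w' = h w')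
    (hg : HD (0, 1) g A w) (hh : HD (1, 0) h B w) : A = B := by
  have e1 := (hg.ev ha).2
  have e2 := (hh.ev hb).2
  rw [← e1, ← e2]
  exact comm hf

theorem t_SYS2 : S_SYS2 := by
  intro φ ψ θ η γ δ z sφ sψ sθ sη sγ sδ hid
  obtain ⟨T, hT⟩ : ∃ T : ℝ × ℝ → ℝ, T = fun w => θ w * δ w + da η w := ⟨_, rfl⟩
  obtain ⟨Γ, hΓ⟩ : ∃ Γ : ℝ × ℝ → ℝ, Γ = fun w => da γ w + γ w ^ 2 := ⟨_, rfl⟩
  obtain ⟨Δ, hΔ⟩ : ∃ Δ : ℝ × ℝ → ℝ, Δ = fun w => da δ w + γ w * δ w := ⟨_, rfl⟩
  -- smoothness
  have sT : ContDiffAt ℝ 14 T z := by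
    rw [hT]
    exact ((sθ.of_le (by norm_num)).mul (sδ.of_le (by norm_num))).add (cda sη (by norm_num))
  have sΓ : ContDiffAt ℝ 14 Γ z := by
    rw [hΓ]
    exact (cda sγ (by norm_num)).add ((sγ.of_le (by norm_num)).pow 2)
  have sΔ : ContDiffAt ℝ 14 Δ z := by
    rw [hΔ]
    exact (cda sδ (by norm_num)).add ((sγ.of_le (by norm_num)).mul (sδ.of_le (by norm_num)))
  have sTa : ContDiffAt ℝ 13 (da T) z := cda sT (by norm_num)
  have sTb : ContDiffAt ℝ 13 (db T) z := cdb sT (by norm_num)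
  have sTab : ContDiffAt ℝ 12 (db (da T)) z := cdb sTa (by norm_num)
  have n15 : (15 : WithTop ℕ∞) ≠ ∞ := by decide
  have n14 : (14 : WithTop ℕ∞) ≠ ∞ := by decide
  have n13 : (13 : WithTop ℕ∞) ≠ ∞ := by decide
  have Eφ := sφ.eventually n15
  have Eψ := sψ.eventually n15
  have Eθ := sθ.eventually n15
  have Eη := sη.eventually n15
  have Eγ := sγ.eventually n15
  have Eδ := sδ.eventually n15
  have ET := sT.eventually n14
  have EΓ := sΓ.eventually n14
  have EΔ := sΔ.eventually n14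
  have ETa := sTa.eventually n13
  have ETb := sTb.eventually n13
  -- the definitions, as formulas
  have dη : ∀ w, da η w = T w - θ w * δ w := fun w => by rw [hT]; ring
  have dγ : ∀ w, da γ w = Γ w - γ w ^ 2 := fun w => by rw [hΓ]; ring
  have dδ : ∀ w, da δ w = Δ w - γ w * δ w := fun w => by rw [hΔ]; ring
  have dd : ∀ {f : ℝ × ℝ → ℝ} {w : ℝ × ℝ} {n : WithTop ℕ∞}, ContDiffAt ℝ n f w → n ≠ 0 →
      DifferentiableAt ℝ f w := fun h hn => h.differentiableAt hn
  -- stage 1
  have st1 : ∀ᶠ w in 𝓝 z, db θ w = η w * θ w - Γ w + φ w * T w ∧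
      db η w = η w * η w + ψ w * T w - Δ w ∧
      db Γ w = da T w + θ w * Δ w + 2 * (γ w * T w) ∧
      db Δ w = 2 * (T w * δ w) + η w * Δ w := by
    filter_upwards [hid.eventually_nhds, hid, Eφ, Eψ, Eθ, Eη, Eγ, Eδ, ET, EΓ, EΔ] with w hw hw0
      cφ cψ cθ cη cγ cδ cT cΓ cΔ
    obtain ⟨p1, p2, p3, p4, p5, p6, p7⟩ := hw0
    have xφ := dd cφ (by norm_num)
    have xψ := dd cψ (by norm_num)
    have xθ := dd cθ (by norm_num)
    have xη := dd cη (by norm_num)
    have xγ := dd cγ (by norm_num)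
    have xδ := dd cδ (by norm_num)
    have xT := dd cT (by norm_num)
    have xΓ := dd cΓ (by norm_num)
    have xΔ := dd cΔ (by norm_num)
    rw [dη] at p6
    have q1 := cross (f := φ) (g := fun w => θ w - φ w * γ w) (h := fun w => ψ w * θ w - γ w)
      (cφ.of_le (by norm_num)) (hw.mono fun w' h => h.1) (hw.mono fun w' h => h.2.2.1)
      ((hdb xθ).sub ((hdb xφ).mul (hdb xγ))) (((hda xψ).mul (hda xθ)).sub (hda xγ))
    have q2 := cross (f := ψ) (g := fun w => η w - φ w * δ w) (h := fun w => ψ w * η w - δ w)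
      (cψ.of_le (by norm_num)) (hw.mono fun w' h => h.2.1) (hw.mono fun w' h => h.2.2.2.1)
      ((hdb xη).sub ((hdb xφ).mul (hdb xδ))) (((hda xψ).mul (hda xη)).sub (hda xδ))
    have q3 := cross (f := γ) (g := fun w => Γ w - γ w * γ w) (h := fun w => T w + θ w * δ w)
      (cγ.of_le (by norm_num)) (Eventually.of_forall fun w' => by rw [dγ]; ring)
      (hw.mono fun w' h => by rw [h.2.2.2.2.2.1, dη]; ring)
      ((hdb xΓ).sub ((hdb xγ).mul (hdb xγ))) ((hda xT).add ((hda xθ).mul (hda xδ)))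
    have q4 := cross (f := δ) (g := fun w => Δ w - γ w * δ w) (h := fun w => η w * δ w)
      (cδ.of_le (by norm_num)) (Eventually.of_forall fun w' => by rw [dδ])
      (hw.mono fun w' h => h.2.2.2.2.2.2)
      ((hdb xΔ).sub ((hdb xγ).mul (hdb xδ))) ((hda xη).mul (hda xδ))
    rw [p1] at *
    rw [p2, p3, p5, p6, dγ] at q1
    rw [p2, p3, p7, dη, dδ] at q2
    rw [p5, p6, dδ] at q3
    rw [p6, p7, dη, dδ] at q4
    refine ⟨?_, ?_, ?_, ?_⟩
    · linear_combination q1
    · linear_combination q2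
    · linear_combination q3
    · linear_combination q4
  -- stage 2
  have st2 : ∀ᶠ w in 𝓝 z, da Γ w = 3 * (T w * θ w) + φ w * da T w - γ w * Γ w ∧
      da Δ w = 3 * (η w * T w) + ψ w * da T w - db T w - Γ w * δ w := by
    filter_upwards [hid.eventually_nhds, hid, st1.eventually_nhds, st1, Eφ, Eψ, Eθ, Eη, Eγ, Eδ,
      ET, EΓ, EΔ] with w hw hw0 hs hs0 cφ cψ cθ cη cγ cδ cT cΓ cΔ
    obtain ⟨p1, p2, p3, p4, p5, p6, p7⟩ := hw0
    obtain ⟨r1, r2, r3, r4⟩ := hs0
    have xφ := dd cφ (by norm_num)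
    have xψ := dd cψ (by norm_num)
    have xθ := dd cθ (by norm_num)
    have xη := dd cη (by norm_num)
    have xγ := dd cγ (by norm_num)
    have xδ := dd cδ (by norm_num)
    have xT := dd cT (by norm_num)
    have xΓ := dd cΓ (by norm_num)
    have xΔ := dd cΔ (by norm_num)
    rw [dη] at p6
    have q1 := cross (f := θ) (g := fun w => -(γ w * θ w))
      (h := fun w => η w * θ w - Γ w + φ w * T w)
      (cθ.of_le (by norm_num)) (hw.mono fun w' h => h.2.2.2.2.1) (hs.mono fun w' h => h.1)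
      ((hdb xγ).mul (hdb xθ)).neg
      ((((hda xη).mul (hda xθ)).sub (hda xΓ)).add ((hda xφ).mul (hda xT)))
    have q2 := cross (f := η) (g := fun w => T w - θ w * δ w)
      (h := fun w => η w * η w + ψ w * T w - Δ w)
      (cη.of_le (by norm_num)) (Eventually.of_forall fun w' => dη w') (hs.mono fun w' h => h.2.1)
      ((hdb xT).sub ((hdb xθ).mul (hdb xδ)))
      ((((hda xη).mul (hda xη)).add ((hda xψ).mul (hda xT))).sub (hda xΔ))
    rw [p1, p5, p6, r1, dη] at q1
    rw [p2, p7, r1, dη] at q2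
    refine ⟨?_, ?_⟩
    · linear_combination q1
    · linear_combination q2
  -- stage 3
  have st3 : ∀ᶠ w in 𝓝 z, da (da T) w = φ w * db (da T) w + 4 * θ w * db T w - 6 * T w * Γ w +
        3 * φ w * T w ^ 2 - 4 * γ w * da T w ∧
      da (db T) w = db (da T) w ∧
      db (db T) w = ψ w * db (da T) w + 4 * η w * db T w - 6 * T w * Δ w +
        3 * ψ w * T w ^ 2 - 4 * δ w * da T w := by
    filter_upwards [hid.eventually_nhds, hid, st1.eventually_nhds, st1, st2.eventually_nhds, st2,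
      Eφ, Eψ, Eθ, Eη, Eγ, Eδ, ET, EΓ, EΔ, ETa, ETb] with w hw hw0 hs hs0 ht ht0 cφ cψ cθ cη cγ cδ
      cT cΓ cΔ cTa cTb
    obtain ⟨p1, p2, p3, p4, p5, p6, p7⟩ := hw0
    obtain ⟨r1, r2, r3, r4⟩ := hs0
    obtain ⟨t1, t2⟩ := ht0
    have xφ := dd cφ (by norm_num)
    have xψ := dd cψ (by norm_num)
    have xθ := dd cθ (by norm_num)
    have xη := dd cη (by norm_num)
    have xγ := dd cγ (by norm_num)
    have xδ := dd cδ (by norm_num)
    have xT := dd cT (by norm_num)
    have xΓ := dd cΓ (by norm_num)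
    have xΔ := dd cΔ (by norm_num)
    have xTa := dd cTa (by norm_num)
    have xTb := dd cTb (by norm_num)
    have hc := comm (f := T) (w := w) (cT.of_le (by norm_num))
    rw [dη] at p6
    have q1 := cross (f := Γ) (g := fun w => 3 * (T w * θ w) + φ w * da T w - γ w * Γ w)
      (h := fun w => da T w + θ w * Δ w + 2 * (γ w * T w))
      (cΓ.of_le (by norm_num)) (ht.mono fun w' h => h.1) (hs.mono fun w' h => h.2.2.1)
      (((((hdb xT).mul (hdb xθ)).cmul 3).add ((hdb xφ).mul (hdb xTa))).sub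
        ((hdb xγ).mul (hdb xΓ)))
      (((hda xTa).add ((hda xθ).mul (hda xΔ))).add (((hda xγ).mul (hda xT)).cmul 2))
    have q2 := cross (f := Δ) (g := fun w => 3 * (η w * T w) + ψ w * da T w - db T w - Γ w * δ w)
      (h := fun w => 2 * (T w * δ w) + η w * Δ w)
      (cΔ.of_le (by norm_num)) (ht.mono fun w' h => h.2) (hs.mono fun w' h => h.2.2.2)
      ((((((hdb xη).mul (hdb xT)).cmul 3).add ((hdb xψ).mul (hdb xTa))).sub (hdb xTb)).sub
        ((hdb xΓ).mul (hdb xδ)))
      ((((hda xT).mul (hda xδ)).cmul 2).add ((hda xη).mul (hda xΔ)))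
    rw [p3, p5, p6, r1, r3, t2, dγ] at q1
    rw [p4, p7, r2, r3, t2, dη, dδ] at q2
    refine ⟨?_, hc.symm, ?_⟩
    · linear_combination -q1
    · linear_combination -q2
  refine ⟨![φ, ψ, θ, η, γ, δ, Γ, Δ, T, da T, db T, db (da T)], rfl, rfl, ⟨?_, ?_, ?_⟩, ?_⟩
  · intro i
    fin_cases i
    · exact sφ.of_le (by norm_num)
    · exact sψ.of_le (by norm_num)
    · exact sθ.of_le (by norm_num)
    · exact sη.of_le (by norm_num)
    · exact sγ.of_le (by norm_num)
    · exact sδ.of_le (by norm_num)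
    · exact sΓ.of_le (by norm_num)
    · exact sΔ.of_le (by norm_num)
    · exact sT.of_le (by norm_num)
    · exact sTa.of_le (by norm_num)
    · exact sTb.of_le (by norm_num)
    · exact sTab.of_le (by norm_num)
  · intro i
    fin_cases i
    · filter_upwards [hid] with w h; exact h.1
    · filter_upwards [hid] with w h; exact h.2.1
    · filter_upwards [hid] with w h; exact h.2.2.2.2.1
    · exact Eventually.of_forall fun w => dη w
    · exact Eventually.of_forall fun w => dγ w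
    · exact Eventually.of_forall fun w => dδ w
    · filter_upwards [st2] with w h
      change da Γ w = 3 * T w * θ w + φ w * da T w - γ w * Γ w
      rw [h.1]; ring
    · filter_upwards [st2] with w h
      change da Δ w = 3 * η w * T w + ψ w * da T w - db T w - Γ w * δ w
      rw [h.2]; ring
    · exact Eventually.of_forall fun w => rfl
    · filter_upwards [st3] with w h
      change da (da T) w = φ w * db (da T) w + 4 * θ w * db T w - 6 * T w * Γ w +
        3 * φ w * T w ^ 2 - 4 * γ w * da T w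
      exact h.1
    · filter_upwards [st3] with w h; exact h.2.1
  · intro i
    fin_cases i
    · filter_upwards [hid] with w h; exact h.2.2.1
    · filter_upwards [hid] with w h; exact h.2.2.2.1
    · filter_upwards [st1] with w h; exact h.1
    · filter_upwards [st1] with w h
      change db η w = η w ^ 2 + ψ w * T w - Δ w
      rw [h.2.1]; ring
    · filter_upwards [hid] with w h
      change db γ w = T w + θ w * δ w
      rw [h.2.2.2.2.2.1, dη]; ring
    · filter_upwards [hid] with w h; exact h.2.2.2.2.2.2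
    · filter_upwards [st1] with w h
      change db Γ w = da T w + θ w * Δ w + 2 * γ w * T w
      rw [h.2.2.1]; ring
    · filter_upwards [st1] with w h
      change db Δ w = 2 * T w * δ w + η w * Δ w
      rw [h.2.2.2]; ring
    · exact Eventually.of_forall fun w => rfl
    · exact Eventually.of_forall fun w => rfl
    · filter_upwards [st3] with w h
      change db (db T) w = ψ w * db (da T) w + 4 * η w * db T w - 6 * T w * Δ w +
        3 * ψ w * T w ^ 2 - 4 * δ w * da T w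
      exact h.2.2
  · change T z = _
    rw [hT]

end Pool.Agent.U439.PD
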